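import Pool.Agent.helper13.RF.Spec1

/-! Row rf:NIP (MP_16912e_nt). -/

set_option autoImplicit false

namespace Pool.Agent.RF

theorem NIP : NIP_stmt := by
  intro C D _ _ _ _ n s hns h5
  have e1 : Nat.card C = Nat.card n.ker * Nat.card n.range := by
    rw [← Nat.card_congr (QuotientGroup.quotientKerEquivRange n).toEquiv, mul_comm,
      ← Subgroup.card_eq_card_quotient_mul_card_subgroup]
  let ψ : C →* C := s * (MonoidHom.id C)⁻¹
  have hψ : ∀ c, ψ c = s c * c⁻¹ := fun c => rfl
  have e2 : Nat.card C = Nat.card ψ.ker * Nat.card ψ.range := by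
    rw [← Nat.card_congr (QuotientGroup.quotientKerEquivRange ψ).toEquiv, mul_comm,
      ← Subgroup.card_eq_card_quotient_mul_card_subgroup]
  have e3 : Nat.card ψ.ker = Nat.card {c : C // s c = c} := by
    refine Nat.card_congr (Equiv.subtypeEquivRight fun c => ?_)
    rw [MonoidHom.mem_ker, hψ, mul_inv_eq_one]
  have e4 : ψ.range ≤ n.ker := by
    rintro _ ⟨c, rfl⟩
    rw [MonoidHom.mem_ker, hψ, map_mul, map_inv, hns, mul_inv_cancel]
  have e5 : Nat.card ψ.range ≤ Nat.card n.ker :=
    Nat.card_le_card_of_injective _ (Subgroup.inclusion_injective e4)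
  have hk : 0 < Nat.card n.ker := Nat.card_pos
  have e6 : Nat.card n.range ≤ Nat.card {c : C // s c = c} := by
    have h1 : Nat.card n.ker * Nat.card n.range ≤ Nat.card n.ker * Nat.card {c : C // s c = c} := by
      rw [← e1, e2, e3, mul_comm]
      exact Nat.mul_le_mul_right _ e5
    exact Nat.le_of_mul_le_mul_left h1 hk
  have e7 : Nat.card n.range * n.range.index = Nat.card D := n.range.card_mul_index
  have hr : 0 < Nat.card n.range := Nat.card_pos
  by_contra hlt
  push Not at hlt
  have h8 : 5 * Nat.card n.range ≤ Nat.card n.range * n.range.index := by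
    rw [e7]
    exact (Nat.mul_le_mul_left 5 e6).trans h5
  have h9 : Nat.card n.range * n.range.index < Nat.card n.range * 5 :=
    Nat.mul_lt_mul_of_pos_left hlt hr
  omega

end Pool.Agent.RF
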