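import Pool.Agent.helper60.RF.SpecB

/-!
# Row rf:VVM (MP_16912e_nt): valuations
-/

set_option autoImplicit false

namespace Pool.Agent.RF

open NumberField

theorem VVM : VVM_stmt := by
  classical
  intro F _ _ P hP hP0
  have h0 : ∀ x : 𝓞 F, x ≠ 0 → Ideal.span {x} ≠ (⊥ : Ideal (𝓞 F)) := fun x hx => by
    rw [Ne, Ideal.span_singleton_eq_bot]
    exact hx
  have h1 : ∀ x y : 𝓞 F, x ≠ 0 → y ≠ 0 → vv P (x * y) = vv P x + vv P y := by
    intro x y hx hy
    unfold vv
    rw [← Ideal.span_singleton_mul_span_singleton, UniqueFactorizationMonoid.normalizedFactors_mul (h0 x hx) (h0 y hy),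
      Multiset.count_add]
  refine ⟨h1, ?_, ?_⟩
  · intro x hx
    unfold vv
    rw [Multiset.count_pos, Ideal.mem_normalizedFactors_iff (h0 x hx), Ideal.span_singleton_le_iff_mem]
    exact ⟨fun h => h.2, fun h => ⟨hP, h⟩⟩
  · rintro x y hy ⟨z, rfl⟩
    rw [h1 x z (left_ne_zero_of_mul hy) (right_ne_zero_of_mul hy)]
    exact Nat.le_add_right _ _

end Pool.Agent.RF
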